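import Pool.Agent.H240.GU.Def5

/-!
# GV-5: thin holomorphic collars are embedded (helper79)
-/

set_option autoImplicit false
set_option linter.unusedSectionVars false

open Set Filter Topology MeasureTheory
open scoped ContDiff ComplexConjugate Real

noncomputable section

namespace Pool.Agent.H79.GV

open Pool.Agent.Y262.EG Pool.Agent.Y262.EX Pool.Agent.Y262.EL Pool.Agent.Y262.QE
open Pool.Agent.Y264.QR Pool.Agent.H240.SC Pool.Agent.H240.SG Pool.Agent.H240.CG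
open Pool.Agent.H240.AL Pool.Agent.H240.GU Pool.Agent.H240.GV

variable {c : ℝ → ℂ} {Γ : ℕ → ℂ → ℂ}

theorem hconv (a : ℝ) : Convex ℝ {z : ℂ | |z.re| ≤ a} := by
  have h1 : {z : ℂ | |z.re| ≤ a} = Complex.reLm ⁻¹' (Icc (-a) a) := by
    ext z
    rw [mem_ofPred_eq, abs_le]
    rfl
  rw [h1]
  exact (convex_Icc (-a) a).linear_preimage _

theorem deriv_line (hA : Ap c Γ) (n : ℕ) (t : ℝ) :
    deriv (fun t : ℝ => Γ n (t * Complex.I)) t = deriv (Γ n) (t * Complex.I) * Complex.I := by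
  have h1 : HasDerivAt (fun z : ℂ => z * Complex.I) Complex.I (t : ℂ) := by
    have := (hasDerivAt_id (t : ℂ)).mul_const Complex.I
    rwa [one_mul] at this
  have h2 := (hA.ent n ((t : ℂ) * Complex.I)).hasDerivAt
  have h3 : HasDerivAt (fun z : ℂ => Γ n (z * Complex.I))
      (deriv (Γ n) (t * Complex.I) * Complex.I) (t : ℂ) := HasDerivAt.comp (t : ℂ) h2 h1
  exact h3.comp_ofReal.deriv

/-- the constants -/
theorem consts (hA : Ap c Γ) : ∃ C : ℝ, 0 < C ∧ ∀ (n : ℕ) (z : ℂ), |z.re| ≤ 1 / ((n : ℝ) + 1) →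
    ‖deriv (deriv (Γ n)) z‖ ≤ C ∧ ‖Γ n z - c z.im‖ ≤ C / ((n : ℝ) + 1) ∧
    ‖deriv (Γ n) z * Complex.I - deriv c z.im‖ ≤ C / ((n : ℝ) + 1) := by
  obtain ⟨A0, h0⟩ := hA.close 0 1
  obtain ⟨A1, h1⟩ := hA.close 1 1
  obtain ⟨B1, g1⟩ := hA.bd 1 le_rfl
  obtain ⟨B2, g2⟩ := hA.bd 2 (by norm_num)
  have a0 := le_abs_self A0
  have a1 := le_abs_self A1
  have a2 := le_abs_self B1
  have a3 := le_abs_self B2
  have b0 := abs_nonneg A0
  have b1 := abs_nonneg A1
  have b2 := abs_nonneg B1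
  have b3 := abs_nonneg B2
  refine ⟨|A0| + |A1| + |B1| + |B2| + 1, by linarith, fun n z hz => ?_⟩
  have hn : (0 : ℝ) < (n : ℝ) + 1 := by positivity
  have hd1 : ∀ x, |x.re| ≤ 1 / ((n : ℝ) + 1) → ‖deriv (Γ n) x‖ ≤ |B1| := by
    intro x hx
    have := g1 n x hx
    rw [iteratedDeriv_one] at this
    exact this.trans a2
  have hd2 : ∀ x, |x.re| ≤ 1 / ((n : ℝ) + 1) → ‖deriv (deriv (Γ n)) x‖ ≤ |B2| := by
    intro x hx
    have := g2 n x hx
    rw [iteratedDeriv_succ, iteratedDeriv_one] at this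
    exact this.trans a3
  set z0 : ℂ := (z.im : ℂ) * Complex.I with hz0
  have hz0re : z0.re = 0 := by simp [hz0]
  have hz0m : z0 ∈ {x : ℂ | |x.re| ≤ 1 / ((n : ℝ) + 1)} := by
    rw [mem_ofPred_eq, hz0re, abs_zero]
    positivity
  have hzz : ‖z - z0‖ ≤ 1 / ((n : ℝ) + 1) := by
    have h2 : z - z0 = (z.re : ℂ) := by
      apply Complex.ext
      · simp [hz0]
      · simp [hz0]
    rw [h2, Complex.norm_real]
    exact hz
  have hΓ' : Differentiable ℂ (deriv (Γ n)) :=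
    ((hA.ent n).contDiff (n := 2)).differentiable_deriv_two
  have e1 : ‖Γ n z - Γ n z0‖ ≤ |B1| * (1 / ((n : ℝ) + 1)) := by
    refine ((hconv (1 / ((n : ℝ) + 1))).norm_image_sub_le_of_norm_deriv_le
      (fun x _ => hA.ent n x) hd1 hz0m hz).trans ?_
    exact mul_le_mul_of_nonneg_left hzz b2
  have e2 : ‖deriv (Γ n) z - deriv (Γ n) z0‖ ≤ |B2| * (1 / ((n : ℝ) + 1)) := by
    refine ((hconv (1 / ((n : ℝ) + 1))).norm_image_sub_le_of_norm_deriv_le
      (fun x _ => hΓ' x) hd2 hz0m hz).trans ?_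
    exact mul_le_mul_of_nonneg_left hzz b3
  have e3 := h0 n z.im
  rw [iteratedDeriv_zero, iteratedDeriv_zero, pow_one] at e3
  have e4 := h1 n z.im
  rw [iteratedDeriv_one, iteratedDeriv_one, pow_one, deriv_line hA] at e4
  have e5 : A0 / ((n : ℝ) + 1) ≤ |A0| / ((n : ℝ) + 1) := div_le_div_of_nonneg_right a0 hn.le
  have e6 : A1 / ((n : ℝ) + 1) ≤ |A1| / ((n : ℝ) + 1) := div_le_div_of_nonneg_right a1 hn.le
  refine ⟨(hd2 z hz).trans (by linarith), ?_, ?_⟩
  · have h3 : Γ n z - c z.im = (Γ n z - Γ n z0) + (Γ n z0 - c z.im) := by ring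
    have h4 : |B1| * (1 / ((n : ℝ) + 1)) + |A0| / ((n : ℝ) + 1) ≤
        (|A0| + |A1| + |B1| + |B2| + 1) / ((n : ℝ) + 1) := by
      rw [mul_one_div, ← add_div]
      exact div_le_div_of_nonneg_right (by linarith) hn.le
    rw [h3]
    exact (norm_add_le _ _).trans (by linarith)
  · have h3 : deriv (Γ n) z * Complex.I - deriv c z.im =
        (deriv (Γ n) z - deriv (Γ n) z0) * Complex.I +
          (deriv (Γ n) z0 * Complex.I - deriv c z.im) := by ring
    have h4 : |B2| * (1 / ((n : ℝ) + 1)) + |A1| / ((n : ℝ) + 1) ≤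
        (|A0| + |A1| + |B1| + |B2| + 1) / ((n : ℝ) + 1) := by
      rw [mul_one_div, ← add_div]
      exact div_le_div_of_nonneg_right (by linarith) hn.le
    have h5 : ‖(deriv (Γ n) z - deriv (Γ n) z0) * Complex.I‖ ≤ |B2| * (1 / ((n : ℝ) + 1)) := by
      rw [norm_mul, Complex.norm_I, mul_one]
      exact e2
    rw [h3]
    exact (norm_add_le _ _).trans (by linarith)

/-- limits along an ultrafilter -/
theorem lim_key (hA : Ap c Γ) (hc : ContDiff ℝ ∞ c) {U : Ultrafilter ℕ} (hU : (U : Filter ℕ) ≤ atTop)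
    {z : ℕ → ℂ} (hz : ∀ᶠ n in (U : Filter ℕ), |(z n).re| ≤ 1 / ((n : ℝ) + 1) ∧
      (z n).im ∈ Icc 0 (2 * π)) :
    ∃ s : ℝ, Tendsto z U (𝓝 ((s : ℂ) * Complex.I)) ∧ Tendsto (fun n => Γ n (z n)) U (𝓝 (c s)) ∧
      Tendsto (fun n => deriv (Γ n) (z n) * Complex.I) U (𝓝 (deriv c s)) := by
  obtain ⟨C, hC, hb⟩ := consts hA
  have h1 : (U.map fun n => (z n).im : Filter ℝ) ≤ 𝓟 (Icc 0 (2 * π)) := by
    rw [Ultrafilter.coe_map, le_principal_iff, Filter.mem_map]
    filter_upwards [hz] with n hn using hn.2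
  obtain ⟨s, _, hs⟩ := (isCompact_Icc (a := (0 : ℝ)) (b := 2 * π)).ultrafilter_le_nhds _ h1
  have hs' : Tendsto (fun n => (z n).im) U (𝓝 s) := hs
  have hinv : Tendsto (fun n : ℕ => C / ((n : ℝ) + 1)) U (𝓝 0) :=
    ((tendsto_const_nhds (x := C)).div_atTop
      (tendsto_atTop_add_const_right _ _ tendsto_natCast_atTop_atTop)).mono_left hU
  have hinv1 : Tendsto (fun n : ℕ => 1 / ((n : ℝ) + 1)) U (𝓝 0) :=
    ((tendsto_const_nhds (x := (1 : ℝ))).div_atTop
      (tendsto_atTop_add_const_right _ _ tendsto_natCast_atTop_atTop)).mono_left hU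
  have hre : Tendsto (fun n => (z n).re) U (𝓝 0) :=
    squeeze_zero_norm' (by filter_upwards [hz] with n hn using hn.1) hinv1
  refine ⟨s, ?_, ?_, ?_⟩
  · have h2 : Tendsto (fun n => ((z n).re : ℂ) + ((z n).im : ℂ) * Complex.I) U
        (𝓝 (((0 : ℝ) : ℂ) + (s : ℂ) * Complex.I)) :=
      ((Complex.continuous_ofReal.tendsto _).comp hre).add
        (((Complex.continuous_ofReal.tendsto _).comp hs').mul_const _)
    rw [Complex.ofReal_zero, zero_add] at h2
    refine h2.congr fun n => Complex.re_add_im _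
  · have h2 : Tendsto (fun n => c (z n).im) U (𝓝 (c s)) := (hc.continuous.tendsto s).comp hs'
    have h3 : Tendsto (fun n => Γ n (z n) - c (z n).im) U (𝓝 0) :=
      squeeze_zero_norm' (by filter_upwards [hz] with n hn using (hb n _ hn.1).2.1) hinv
    have h4 := h3.add h2
    rw [zero_add] at h4
    exact h4.congr fun n => by ring
  · have h2 : Tendsto (fun n => deriv c (z n).im) U (𝓝 (deriv c s)) :=
      ((hc.continuous_deriv (by simp)).tendsto s).comp hs'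
    have h3 : Tendsto (fun n => deriv (Γ n) (z n) * Complex.I - deriv c (z n).im) U (𝓝 0) :=
      squeeze_zero_norm' (by filter_upwards [hz] with n hn using (hb n _ hn.1).2.2) hinv
    have h4 := h3.add h2
    rw [zero_add] at h4
    exact h4.congr fun n => by ring

theorem exists_ultra {Q : ℕ → Prop} (h : ∃ᶠ n in atTop, Q n) :
    ∃ U : Ultrafilter ℕ, (U : Filter ℕ) ≤ atTop ∧ ∀ᶠ n in (U : Filter ℕ), Q n := by
  have h1 : (atTop ⊓ 𝓟 {n | Q n}).NeBot := frequently_mem_iff_neBot.1 h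
  have h2 := Ultrafilter.of_le (atTop ⊓ 𝓟 {n | Q n})
  exact ⟨Ultrafilter.of (atTop ⊓ 𝓟 {n | Q n}), h2.trans inf_le_left,
    le_principal_iff.1 (h2.trans inf_le_right)⟩

/-- reduction of the imaginary part -/
theorem exists_red (z : ℂ) : ∃ k : ℤ, (z + k * (2 * π * Complex.I)).re = z.re ∧
    (z + k * (2 * π * Complex.I)).im ∈ Icc 0 (2 * π) := by
  have hre : ∀ k : ℤ, (z + k * (2 * π * Complex.I)).re = z.re := by
    intro k
    simp
  have him : ∀ k : ℤ, (z + k * (2 * π * Complex.I)).im = z.im + k * (2 * π) := by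
    intro k
    simp
  have hπ : (0 : ℝ) < 2 * π := by positivity
  refine ⟨-⌊z.im / (2 * π)⌋, hre _, ?_⟩
  rw [him]
  have h1 := Int.floor_le (z.im / (2 * π))
  have h2 := (Int.lt_floor_add_one (z.im / (2 * π))).le
  rw [le_div_iff₀ hπ] at h1
  rw [div_le_iff₀ hπ] at h2
  push_cast
  constructor <;> nlinarith only [h1, h2]

theorem tay (hA : Ap c Γ) {n : ℕ} {C : ℝ}
    (hb : ∀ z : ℂ, |z.re| ≤ 1 / ((n : ℝ) + 1) → ‖deriv (deriv (Γ n)) z‖ ≤ C) {z w : ℂ}
    (hz : |z.re| ≤ 1 / ((n : ℝ) + 1)) (hw : |w.re| ≤ 1 / ((n : ℝ) + 1)) (h : Γ n w = Γ n z)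
    (hne : w ≠ z) : ‖deriv (Γ n) z‖ ≤ C * ‖w - z‖ := by
  have hC : 0 ≤ C := (norm_nonneg _).trans (hb z hz)
  have hS := hconv (1 / ((n : ℝ) + 1))
  have hΓ' : Differentiable ℂ (deriv (Γ n)) :=
    ((hA.ent n).contDiff (n := 2)).differentiable_deriv_two
  have hseg : segment ℝ z w ⊆ {x : ℂ | |x.re| ≤ 1 / ((n : ℝ) + 1)} := hS.segment_subset hz hw
  have h1 : ∀ ζ ∈ segment ℝ z w, ‖deriv (Γ n) ζ - deriv (Γ n) z‖ ≤ C * ‖w - z‖ := by
    intro ζ hζ
    refine (hS.norm_image_sub_le_of_norm_deriv_le (fun x _ => hΓ' x) hb hz (hseg hζ)).trans ?_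
    refine mul_le_mul_of_nonneg_left ?_ hC
    have := norm_sub_le_of_mem_segment hζ
    exact this
  have h2 : ∀ ζ : ℂ, HasDerivAt (fun ζ => Γ n ζ - deriv (Γ n) z * ζ)
      (deriv (Γ n) ζ - deriv (Γ n) z) ζ := by
    intro ζ
    have h3 := (hA.ent n ζ).hasDerivAt
    have h4 := (hasDerivAt_id ζ).const_mul (deriv (Γ n) z)
    rw [mul_one] at h4
    exact h3.sub h4
  have h5 := (convex_segment z w).norm_image_sub_le_of_norm_deriv_le
    (f := fun ζ => Γ n ζ - deriv (Γ n) z * ζ) (C := C * ‖w - z‖) (x := z) (y := w)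
    (fun x _ => (h2 x).differentiableAt) (fun x hx => by rw [(h2 x).deriv]; exact h1 x hx)
    (left_mem_segment ℝ z w) (right_mem_segment ℝ z w)
  have h6 : (Γ n w - deriv (Γ n) z * w) - (Γ n z - deriv (Γ n) z * z) =
      -(deriv (Γ n) z * (w - z)) := by
    rw [h]
    ring
  rw [h6, norm_neg, norm_mul] at h5
  exact le_of_mul_le_mul_right h5 (norm_pos_iff.2 (sub_ne_zero.2 hne))

theorem stEmb : StEmb := by
  intro M P _ _ _ _ Ω φ pr q c Γ hUT hG hA
  obtain ⟨C, hC, hb⟩ := consts hA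
  -- periodicity
  have hΓp : ∀ (n : ℕ) (k : ℤ) (z : ℂ),
      Γ n (z + k * (2 * π * Complex.I)) = Γ n z + k * (2 * π * Complex.I) := by
    intro n k z
    have h1 : Function.Periodic (fun z => Γ n z - z) (2 * π * Complex.I) := by
      intro x
      simp only
      rw [hA.per]
      ring
    have h2 := h1.int_mul k z
    linear_combination h2
  have hΓ'p : ∀ (n : ℕ) (k : ℤ) (z : ℂ),
      deriv (Γ n) (z + k * (2 * π * Complex.I)) = deriv (Γ n) z := by
    intro n k z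
    rw [← deriv_comp_add_const]
    have h1 : (fun x => Γ n (x + k * (2 * π * Complex.I))) =
        fun x => Γ n x + k * (2 * π * Complex.I) := by
      funext x
      exact hΓp n k x
    rw [h1, deriv_add_const]
  have hcp : ∀ (k : ℤ) (t : ℝ), c (t + k * (2 * π)) = c t + k * (2 * π * Complex.I) := by
    intro k t
    have h1 : Function.Periodic (fun t : ℝ => c t - t * Complex.I) (2 * π) := by
      intro x
      simp only
      rw [hG.per]
      push_cast
      ring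
    have h2 := h1.int_mul k t
    push_cast at h2
    linear_combination h2
  have hΩp : ∀ (k : ℤ) (z : ℂ), z + k * (2 * π * Complex.I) ∈ Ω ↔ z ∈ Ω := by
    intro k z
    have h1 : Function.Periodic (fun z : ℂ => z ∈ Ω) (2 * π * Complex.I) := fun x =>
      propext (hG.trm x)
    have h2 := h1.int_mul k z
    rw [h2]
  have hprp : ∀ (k : ℤ) (z : ℂ), z ∈ Ω → pr (z + k * (2 * π * Complex.I)) = pr z := by
    classical
    intro k z hz
    have h1 : Function.Periodic (fun z : ℂ => if z ∈ Ω then some (pr z) else none)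
        (2 * π * Complex.I) := by
      intro x
      simp only
      by_cases hx : x ∈ Ω
      · rw [if_pos ((hG.trm x).2 hx), if_pos hx, hG.trp x hx]
      · rw [if_neg (fun h => hx ((hG.trm x).1 h)), if_neg hx]
    have h2 := h1.int_mul k z
    rw [if_pos ((hΩp k z).2 hz), if_pos hz, Option.some_inj] at h2
    exact h2
  have hmemS : ∀ (n : ℕ) (z : ℂ), z ∈ Sx 0 (1 / ((n : ℝ) + 1)) → |z.re| ≤ 1 / ((n : ℝ) + 1) := by
    intro n z hz
    unfold Sx at hz
    rw [mem_ofPred_eq, sub_zero] at hz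
    exact hz.le
  have hmemS2 : ∀ (n : ℕ) (z w : ℂ), w.re = z.re → z ∈ Sx 0 (1 / ((n : ℝ) + 1)) →
      w ∈ Sx 0 (1 / ((n : ℝ) + 1)) := by
    intro n z w h hz
    unfold Sx at hz ⊢
    rw [mem_ofPred_eq] at hz ⊢
    rwa [h]
  -- the maps
  have hmaps : ∀ᶠ n : ℕ in atTop, ∀ z ∈ Sx 0 (1 / ((n : ℝ) + 1)), Γ n z ∈ Ω := by
    by_contra hcon
    rw [not_eventually] at hcon
    obtain ⟨U, hU, hQ⟩ := exists_ultra hcon
    have hQ' : ∀ᶠ n : ℕ in (U : Filter ℕ), ∃ z : ℂ, (|z.re| ≤ 1 / ((n : ℝ) + 1) ∧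
        z.im ∈ Icc 0 (2 * π)) ∧ Γ n z ∉ Ω := by
      filter_upwards [hQ] with n hn
      push Not at hn
      obtain ⟨z, hz, hzΩ⟩ := hn
      obtain ⟨k, hk1, hk2⟩ := exists_red z
      refine ⟨z + k * (2 * π * Complex.I), ⟨hmemS n _ (hmemS2 n z _ hk1 hz), hk2⟩, ?_⟩
      rw [hΓp, hΩp]
      exact hzΩ
    obtain ⟨z, hz⟩ := hQ'.choice
    obtain ⟨s, -, h1, -⟩ := lim_key hA hG.sm hU (by filter_upwards [hz] with n hn using hn.1)
    have h2 := h1.eventually (hUT.opn.mem_nhds (hG.mem s))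
    obtain ⟨n, hn1, hn2⟩ := (h2.and hz).exists
    exact hn2.2 hn1
  have hd0 : ∀ᶠ n : ℕ in atTop, ∀ z ∈ Sx 0 (1 / ((n : ℝ) + 1)), deriv (Γ n) z ≠ 0 := by
    by_contra hcon
    rw [not_eventually] at hcon
    obtain ⟨U, hU, hQ⟩ := exists_ultra hcon
    have hQ' : ∀ᶠ n : ℕ in (U : Filter ℕ), ∃ z : ℂ, (|z.re| ≤ 1 / ((n : ℝ) + 1) ∧
        z.im ∈ Icc 0 (2 * π)) ∧ deriv (Γ n) z = 0 := by
      filter_upwards [hQ] with n hn
      push Not at hn
      obtain ⟨z, hz, hz0⟩ := hn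
      obtain ⟨k, hk1, hk2⟩ := exists_red z
      refine ⟨z + k * (2 * π * Complex.I), ⟨hmemS n _ (hmemS2 n z _ hk1 hz), hk2⟩, ?_⟩
      rw [hΓ'p, hz0]
    obtain ⟨z, hz⟩ := hQ'.choice
    obtain ⟨s, -, -, h1⟩ := lim_key hA hG.sm hU (by filter_upwards [hz] with n hn using hn.1)
    have h2 : Tendsto (fun n => deriv (Γ n) (z n) * Complex.I) U (𝓝 0) := by
      refine tendsto_const_nhds.congr' ?_
      filter_upwards [hz] with n hn
      rw [hn.2, zero_mul]
    exact hG.ne s (tendsto_nhds_unique h1 h2)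
  have hinj : ∀ᶠ n : ℕ in atTop, ∀ z ∈ Sx 0 (1 / ((n : ℝ) + 1)),
      ∀ w ∈ Sx 0 (1 / ((n : ℝ) + 1)),
      pr (Γ n z) = pr (Γ n w) → ∃ k : ℤ, w = z + k * (2 * π * Complex.I) := by
    by_contra hcon
    rw [not_eventually] at hcon
    obtain ⟨U, hU, hQ⟩ := exists_ultra hcon
    have hQ' : ∀ᶠ n : ℕ in (U : Filter ℕ), ∃ x : ℂ × ℂ, (|x.1.re| ≤ 1 / ((n : ℝ) + 1) ∧
        x.1.im ∈ Icc 0 (2 * π)) ∧ (|x.2.re| ≤ 1 / ((n : ℝ) + 1) ∧ x.2.im ∈ Icc 0 (2 * π)) ∧
        Γ n x.1 ∈ Ω ∧ Γ n x.2 ∈ Ω ∧ pr (Γ n x.1) = pr (Γ n x.2) ∧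
        ∀ k : ℤ, x.2 ≠ x.1 + k * (2 * π * Complex.I) := by
      filter_upwards [hQ, hU hmaps] with n hn hm
      push Not at hn
      obtain ⟨z, hz, w, hw, hzw, hk⟩ := hn
      obtain ⟨k, hk1, hk2⟩ := exists_red z
      obtain ⟨l, hl1, hl2⟩ := exists_red w
      refine ⟨(z + k * (2 * π * Complex.I), w + l * (2 * π * Complex.I)),
        ⟨hmemS n _ (hmemS2 n z _ hk1 hz), hk2⟩, ⟨hmemS n _ (hmemS2 n w _ hl1 hw), hl2⟩,
        ?_, ?_, ?_, ?_⟩
      · rw [hΓp, hΩp]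
        exact hm z hz
      · rw [hΓp, hΩp]
        exact hm w hw
      · rw [hΓp, hΓp, hprp _ _ (hm z hz), hprp _ _ (hm w hw)]
        exact hzw
      · intro j hj
        apply hk (k + j - l)
        simp only at hj
        push_cast
        linear_combination hj
    obtain ⟨x, hx⟩ := hQ'.choice
    obtain ⟨s, hs0, hs1, hs2⟩ := lim_key hA hG.sm hU (z := fun n => (x n).1)
      (by filter_upwards [hx] with n hn using hn.1)
    obtain ⟨t, ht0, ht1, -⟩ := lim_key hA hG.sm hU (z := fun n => (x n).2)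
      (by filter_upwards [hx] with n hn using hn.2.1)
    have hcont : ∀ s, ContinuousAt pr (c s) := fun s =>
      hUT.contp.continuousAt (hUT.opn.mem_nhds (hG.mem s))
    have h1 : Tendsto (fun n => pr (Γ n (x n).1)) U (𝓝 (pr (c s))) :=
      (hcont s).tendsto.comp hs1
    have h2 : Tendsto (fun n => pr (Γ n (x n).2)) U (𝓝 (pr (c t))) :=
      (hcont t).tendsto.comp ht1
    have h3 : pr (c s) = pr (c t) := tendsto_nhds_unique h1
      (h2.congr' (by filter_upwards [hx] with n hn using hn.2.2.2.2.1.symm))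
    obtain ⟨k, hk⟩ := hG.simple s t h3
    obtain ⟨r, hr, hrΩ, hri⟩ := hUT.injp (c s) (hG.mem s)
    have hw' : Tendsto (fun n => Γ n ((x n).2 + ((-k : ℤ) : ℂ) * (2 * π * Complex.I))) U
        (𝓝 (c s)) := by
      have h4 : Tendsto (fun n => Γ n (x n).2 + ((-k : ℤ) : ℂ) * (2 * π * Complex.I)) U
          (𝓝 (c t + ((-k : ℤ) : ℂ) * (2 * π * Complex.I))) := ht1.add_const _
      have h5 : c t + ((-k : ℤ) : ℂ) * (2 * π * Complex.I) = c s := by
        rw [hk, hcp]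
        push_cast
        ring
      rw [h5] at h4
      exact h4.congr fun n => (hΓp n _ _).symm
    have hdiff : Tendsto (fun n => (x n).2 + ((-k : ℤ) : ℂ) * (2 * π * Complex.I) - (x n).1) U
        (𝓝 0) := by
      have h4 := (ht0.add_const (((-k : ℤ) : ℂ) * (2 * π * Complex.I))).sub hs0
      have h5 : (t : ℂ) * Complex.I + ((-k : ℤ) : ℂ) * (2 * π * Complex.I) -
          (s : ℂ) * Complex.I = 0 := by
        rw [hk]
        push_cast
        ring
      rw [h5] at h4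
      exact h4
    have h6 : ∀ᶠ n in (U : Filter ℕ), ‖deriv (Γ n) (x n).1 * Complex.I‖ ≤
        C * ‖(x n).2 + ((-k : ℤ) : ℂ) * (2 * π * Complex.I) - (x n).1‖ := by
      filter_upwards [hx, hw'.eventually (Metric.ball_mem_nhds _ hr),
        hs1.eventually (Metric.ball_mem_nhds _ hr)] with n hn hn1 hn2
      obtain ⟨⟨a1, _⟩, ⟨a2, _⟩, a3, a4, a5, a6⟩ := hn
      have h7 : pr (Γ n ((x n).2 + ((-k : ℤ) : ℂ) * (2 * π * Complex.I))) =
          pr (Γ n (x n).1) := by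
        rw [hΓp, hprp _ _ a4, a5]
      have h8 := hri hn1 hn2 h7
      rw [norm_mul, Complex.norm_I, mul_one]
      refine tay hA (fun z hz => (hb n z hz).1) a1 ?_ h8 ?_
      · have h9 : ((x n).2 + ((-k : ℤ) : ℂ) * (2 * π * Complex.I)).re = (x n).2.re := by simp
        rw [h9]
        exact a2
      · intro h9
        apply a6 k
        push_cast at h9
        linear_combination h9
    have h9 : Tendsto (fun n => deriv (Γ n) (x n).1 * Complex.I) U (𝓝 0) := by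
      refine squeeze_zero_norm' h6 ?_
      have h10 := (hdiff.norm).const_mul C
      rwa [norm_zero, mul_zero] at h10
    exact hG.ne s (tendsto_nhds_unique hs2 h9)
  obtain ⟨N, hN⟩ := eventually_atTop.1 (hmaps.and (hd0.and hinj))
  refine ⟨N, fun n hn => ?_⟩
  obtain ⟨e1, e2, e3⟩ := hN n hn
  refine ⟨by positivity, (hA.ent n).differentiableOn, e1, e2, fun z hz w hw => ⟨e3 z hz w hw, ?_⟩⟩
  rintro ⟨k, rfl⟩
  rw [hΓp, hprp _ _ (e1 z hz)]

end Pool.Agent.H79.GV
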